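import Pool.Agent.H851R2.QFinal

set_option autoImplicit false

namespace Pool.Agent.Results.MP_61642b_gt.InfinitelyMany

open Pool.Agent.H851R2

/-- There are infinitely many pairwise non-conjugate maximal reflection groups in `Isom(ℍ³)` that
are quasi-arithmetic. -/
theorem result :
    ∃ Γ : ℕ → Subgroup (Matrix.GeneralLinearGroup (Fin (3 + 1)) ℝ),
      (∀ k : ℕ, IsMaximalReflectionGroup 3 (Γ k) ∧ IsQuasiArithmetic 3 (Γ k)) ∧
      ∀ j k : ℕ, j ≠ k → ¬ AreConjugate 3 (Γ j) (Γ k) := by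
  refine ⟨fun k => Gam (k + 1), fun k => ⟨isMaximal_Gam (by omega), isQuasiArithmetic_Gam _⟩, ?_⟩
  intro j k hjk hc
  have := not_conj (by omega) (by omega) hc
  omega

end Pool.Agent.Results.MP_61642b_gt.InfinitelyMany
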